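import Mathlib

set_option autoImplicit false

/-!
# Gaussian logarithmic Sobolev inequality in dual form, dimension one
-/

open MeasureTheory Set Filter Topology

namespace Pool.Agent.H83.LSD

/-- gaussian weight -/
noncomputable def w (x : ℝ) : ℝ := Real.exp (-x ^ 2 / 2)

/-- total mass -/
noncomputable def cG : ℝ := ∫ x, w x

lemma w_pos (x : ℝ) : 0 < w x := Real.exp_pos _

lemma w_cont : Continuous w := by unfold w; fun_prop

lemma w_int : Integrable w := by
  have h := integrable_exp_neg_mul_sq (show (0 : ℝ) < 1 / 2 by norm_num)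
  refine h.congr (Eventually.of_forall fun x => ?_)
  simp only [w]; congr 1; ring

lemma w_le (x : ℝ) : w x ≤ 1 := by
  unfold w
  apply Real.exp_le_one_iff.2
  have := sq_nonneg x
  linarith

lemma cG_pos : 0 < cG := by
  unfold cG
  exact (integral_pos_iff_support_of_nonneg (fun x => (w_pos x).le) w_int).2 (by
    have : Function.support w = univ := by
      ext x; simp [(w_pos x).ne']
    rw [this]; simp)

/-- a primitive with its limits -/
lemma prim (p : ℝ → ℝ) (hp : Continuous p) (hpi : Integrable p) (hpos : ∀ x, 0 < p x) :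
    ∃ F : ℝ → ℝ, (∀ x, HasDerivAt F (p x) x) ∧ (∀ x, 0 < F x) ∧ (∀ x, F x < ∫ t, p t) ∧
      Tendsto F atBot (𝓝 0) ∧ Tendsto F atTop (𝓝 (∫ t, p t)) := by
  refine ⟨fun x => ∫ t in Iic x, p t, ?_, ?_, ?_, ?_, ?_⟩
  · intro x
    have h1 : ∀ y, ∫ t in Iic y, p t = (∫ t in Iic (0 : ℝ), p t) + ∫ t in (0 : ℝ)..y, p t := by
      intro y
      rw [← intervalIntegral.integral_Iic_sub_Iic hpi.integrableOn hpi.integrableOn]
      ring
    have h2 : HasDerivAt (fun y => (∫ t in Iic (0 : ℝ), p t) + ∫ t in (0 : ℝ)..y, p t) (p x) x := by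
      have := (intervalIntegral.integral_hasDerivAt_right (hp.intervalIntegrable 0 x)
        (hp.stronglyMeasurableAtFilter _ _) hp.continuousAt)
      exact this.const_add _
    exact h2.congr_of_eventuallyEq (Eventually.of_forall h1)
  · intro x
    rw [setIntegral_pos_iff_support_of_nonneg_ae (Eventually.of_forall fun t => (hpos t).le)
      hpi.integrableOn]
    have : Function.support p = univ := by ext t; simp [(hpos t).ne']
    rw [this, univ_inter]; simp
  · intro x
    have h3 : (∫ t in Iic x, p t) + ∫ t in Ioi x, p t = ∫ t, p t := by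
      have := integral_add_compl (measurableSet_Iic (a := x)) hpi
      rwa [compl_Iic] at this
    have h4 : 0 < ∫ t in Ioi x, p t := by
      rw [setIntegral_pos_iff_support_of_nonneg_ae (Eventually.of_forall fun t => (hpos t).le)
        hpi.integrableOn]
      have : Function.support p = univ := by ext t; simp [(hpos t).ne']
      rw [this, univ_inter]; simp
    linarith
  · have h3 : ∀ x, (∫ t in Iic x, p t) = (∫ t, p t) - ∫ t in Ioi x, p t := by
      intro x
      have := integral_add_compl (measurableSet_Iic (a := x)) hpi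
      rw [compl_Iic] at this; linarith
    have h5 : Tendsto (fun x => ∫ t in Ioi x, p t) atBot (𝓝 (∫ t, p t)) :=
      (aecover_Ioi tendsto_id).integral_tendsto_of_countably_generated hpi
    have h6 := h5.const_sub (∫ t, p t)
    rw [sub_self] at h6
    exact h6.congr (fun x => (h3 x).symm)
  · exact (aecover_Iic tendsto_id).integral_tendsto_of_countably_generated hpi

/-- the transport map -/
lemma transport (Φ : ℝ → ℝ) (hΦ : Continuous Φ) (M : ℝ) (hM : ∀ x, |Φ x| ≤ M) :
    ∃ T T' : ℝ → ℝ, (∀ x, HasDerivAt T (T' x) x) ∧ Continuous T ∧ Continuous T' ∧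
      ∀ x, Φ x - Real.log ((∫ t, Real.exp (Φ t) * w t) / cG) ≤
        T' x - 1 + x ^ 2 / 2 - T x ^ 2 / 2 := by
  set q : ℝ → ℝ := fun t => Real.exp (Φ t) * w t with hq
  have hqc : Continuous q := by
    have := w_cont
    fun_prop
  have hqi : Integrable q := by
    refine (w_int.const_mul (Real.exp M)).mono' hqc.aestronglyMeasurable
      (Eventually.of_forall fun x => ?_)
    rw [Real.norm_eq_abs, abs_of_pos (mul_pos (Real.exp_pos _) (w_pos x))]
    exact mul_le_mul_of_nonneg_right (Real.exp_le_exp.2 ((le_abs_self _).trans (hM x)))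
      (w_pos x).le
  have hqp : ∀ x, 0 < q x := fun x => mul_pos (Real.exp_pos _) (w_pos x)
  obtain ⟨F, hF, hF0, hF1, -, -⟩ := prim q hqc hqi hqp
  obtain ⟨G, hG, hG0, hG1, hGb, hGt⟩ := prim w w_cont w_int w_pos
  set Z : ℝ := ∫ t, q t with hZ
  have hZp : 0 < Z := (hF0 0).trans (hF1 0)
  have hcp := cG_pos
  have hGc : (∫ t, w t) = cG := rfl
  have hGcont : Continuous G := continuous_iff_continuousAt.2 fun x => (hG x).continuousAt
  have hGmono : StrictMono G := by
    apply strictMono_of_hasDerivAt_pos hG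
    intro x; exact w_pos x
  -- existence
  have hex : ∀ x, ∃ y, G y = cG / Z * F x := by
    intro x
    have h1 : 0 < cG / Z * F x := mul_pos (div_pos hcp hZp) (hF0 x)
    have h2 : cG / Z * F x < cG := by
      have : cG / Z * F x < cG / Z * Z := mul_lt_mul_of_pos_left (hF1 x) (div_pos hcp hZp)
      rwa [div_mul_cancel₀ _ hZp.ne'] at this
    obtain ⟨a, ha⟩ := (hGb.eventually (gt_mem_nhds h1)).exists
    obtain ⟨b, hb⟩ := (hGt.eventually (lt_mem_nhds h2)).exists
    exact mem_range_of_exists_le_of_exists_ge hGcont ⟨a, ha.le⟩ ⟨b, hb.le⟩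
  choose T hT using hex
  set T' : ℝ → ℝ := fun x => (w (T x))⁻¹ * (cG / Z * q x) with hT'
  have hder : ∀ x, HasDerivAt T (T' x) x := by
    intro x
    have hs : HasStrictDerivAt G (w (T x)) (T x) := by
      apply hasStrictDerivAt_of_hasDerivAt_of_continuousAt (Eventually.of_forall hG)
      exact w_cont.continuousAt
    have hl := hs.to_localInverse (w_pos (T x)).ne'
    have hGx : G (T x) = cG / Z * F x := hT x
    have hFd : HasDerivAt (fun y => cG / Z * F y) (cG / Z * q x) x := (hF x).const_mul _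
    have hl' : HasDerivAt (hs.localInverse G (w (T x)) (T x) (w_pos (T x)).ne') (w (T x))⁻¹
        (cG / Z * F x) := by
      rw [← hGx]; exact hl.hasDerivAt
    have hc := HasDerivAt.comp x hl' hFd
    refine hc.congr_of_eventuallyEq ?_
    have hr : ∀ᶠ u in 𝓝 (G (T x)), G (hs.localInverse G (w (T x)) (T x) (w_pos (T x)).ne' u) = u :=
      HasStrictDerivAt.eventually_right_inverse hs (w_pos (T x)).ne'
    rw [hGx] at hr
    have hr2 := hFd.continuousAt.eventually hr
    filter_upwards [hr2] with y hy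
    apply hGmono.injective
    rw [hT y, Function.comp_apply, hy]
  have hTc : Continuous T := continuous_iff_continuousAt.2 fun x => (hder x).continuousAt
  refine ⟨T, T', hder, hTc, ?_, ?_⟩
  · have h1 : Continuous fun x => w (T x) := w_cont.comp hTc
    exact (h1.inv₀ fun x => (w_pos _).ne').mul (continuous_const.mul hqc)
  · intro x
    have hTp : 0 < T' x := by
      simp only [hT']
      exact mul_pos (inv_pos.2 (w_pos _)) (mul_pos (div_pos hcp hZp) (hqp x))
    have h1 : Real.log (T' x) = T x ^ 2 / 2 + (-(Real.log (Z / cG)) + (Φ x + (-x ^ 2 / 2))) := by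
      have e1 : T' x = Real.exp (T x ^ 2 / 2) * ((Z / cG)⁻¹ * Real.exp (Φ x + (-x ^ 2 / 2))) := by
        simp only [hT', hq, w]
        rw [← Real.exp_neg, Real.exp_add, inv_div]
        congr 2
        ring
      rw [e1, Real.log_mul (Real.exp_pos _).ne' (mul_pos (inv_pos.2 (div_pos hZp hcp))
        (Real.exp_pos _)).ne', Real.log_mul (inv_pos.2 (div_pos hZp hcp)).ne'
        (Real.exp_pos _).ne', Real.log_inv, Real.log_exp, Real.log_exp]
    have h2 := Real.log_le_sub_one_of_pos hTp
    linarith

/-- the logarithmic Sobolev inequality in dual form in dimension one -/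
theorem lsi1 (Φ : ℝ → ℝ) (hΦ : Continuous Φ) (M : ℝ) (hM : ∀ x, |Φ x| ≤ M) (g g' : ℝ → ℝ)
    (hg : ∀ x, HasDerivAt g (g' x) x) (hg' : Continuous g') (R : ℝ)
    (hR : ∀ x, R < |x| → g x = 0 ∧ g' x = 0) :
    ∫ x, Φ x * g x ^ 2 * w x ≤ 2 * (∫ x, g' x ^ 2 * w x) +
      Real.log ((∫ t, Real.exp (Φ t) * w t) / cG) * ∫ x, g x ^ 2 * w x := by
  obtain ⟨T, T', hT, hTc, hTc', hle⟩ := transport Φ hΦ M hM
  set ℓ : ℝ := Real.log ((∫ t, Real.exp (Φ t) * w t) / cG) with hℓ
  have hgc : Continuous g := continuous_iff_continuousAt.2 fun x => (hg x).continuousAt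
  have hwc := w_cont
  have hsup : ∀ F : ℝ → ℝ, Continuous F → (∀ x, R < |x| → F x = 0) → Integrable F := by
    intro F hF h0
    apply hF.integrable_of_hasCompactSupport
    apply HasCompactSupport.of_support_subset_isCompact (isCompact_Icc (a := -R) (b := R))
    intro x hx
    by_contra hn
    apply hx
    apply h0
    rw [lt_abs]
    rw [mem_Icc, not_and_or, not_le, not_le] at hn
    rcases hn with h | h
    · right; linarith
    · left; exact h
  -- integration by parts
  set h : ℝ → ℝ := fun x => (T x - x) * g x ^ 2 * w x with hh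
  set h' : ℝ → ℝ := fun x => (T' x - 1) * g x ^ 2 * w x + (T x - x) * (2 * g x * g' x) * w x -
    (T x - x) * g x ^ 2 * (x * w x) with hh'
  have hw : ∀ x, HasDerivAt w (-(x * w x)) x := by
    intro x
    have h1 : HasDerivAt (fun y : ℝ => -y ^ 2 / 2) (-x) x := by
      have := ((hasDerivAt_pow 2 x).neg).div_const 2
      refine this.congr_deriv ?_
      simp
      ring
    have := h1.exp
    refine this.congr_deriv ?_
    simp only [w]; ring
  have hder : ∀ x, HasDerivAt h (h' x) x := by
    intro x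
    have h1 := (((hT x).sub (hasDerivAt_id x)).mul ((hg x).pow 2)).mul (hw x)
    refine h1.congr_deriv ?_
    simp only [hh']
    simp
    ring
  have hi : Integrable h := hsup h (by fun_prop) (fun x hx => by simp [hh, (hR x hx).1])
  have hi' : Integrable h' := hsup h' (by fun_prop) (fun x hx => by
    simp [hh', (hR x hx).1])
  have h0 : ∫ x, h' x = 0 := integral_eq_zero_of_hasDerivAt_of_integrable hder hi' hi
  have i1 : Integrable fun x => Φ x * g x ^ 2 * w x :=
    hsup _ (by fun_prop) (fun x hx => by simp [(hR x hx).1])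
  have i2 : Integrable fun x => g x ^ 2 * w x :=
    hsup _ (by fun_prop) (fun x hx => by simp [(hR x hx).1])
  have i3 : Integrable fun x => g' x ^ 2 * w x :=
    hsup _ (by fun_prop) (fun x hx => by simp [(hR x hx).2])
  have key : ∀ x, Φ x * g x ^ 2 * w x - ℓ * (g x ^ 2 * w x) ≤ h' x + 2 * (g' x ^ 2 * w x) := by
    intro x
    have hwp := w_pos x
    have h1 := mul_le_mul_of_nonneg_right (mul_le_mul_of_nonneg_right (hle x)
      (sq_nonneg (g x))) hwp.le
    have h2 : 0 ≤ ((T x - x) * g x + 2 * g' x) ^ 2 * w x := by positivity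
    simp only [hh']
    nlinarith [h1, h2]
  have hfin := integral_mono (i1.sub (i2.const_mul ℓ)) (hi'.add (i3.const_mul 2)) key
  have e1 : ∫ x, (Φ x * g x ^ 2 * w x - ℓ * (g x ^ 2 * w x)) =
      (∫ x, Φ x * g x ^ 2 * w x) - ℓ * ∫ x, g x ^ 2 * w x := by
    rw [integral_sub i1 (i2.const_mul ℓ), integral_const_mul]
  have e2 : ∫ x, (h' x + 2 * (g' x ^ 2 * w x)) = 2 * ∫ x, g' x ^ 2 * w x := by
    rw [integral_add hi' (i3.const_mul 2), h0, integral_const_mul, zero_add]
  have e3 : (∫ x, (Φ x * g x ^ 2 * w x - ℓ * (g x ^ 2 * w x))) ≤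
      ∫ x, (h' x + 2 * (g' x ^ 2 * w x)) := hfin
  rw [e1, e2] at e3
  linarith

end Pool.Agent.H83.LSD
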