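import Mathlib
import Pool.Agent.H83.LSD.A1

set_option autoImplicit false

/-!
# Gaussian logarithmic Sobolev inequality in dual form, tensorization
-/

open MeasureTheory Set Filter Topology

namespace Pool.Agent.H83.LSD

/-- gaussian weight -/
noncomputable def W (n : ℕ) (x : Fin n → ℝ) : ℝ := ∏ i, w (x i)

/-- test functions of several variables -/
structure Cl (n : ℕ) (g : (Fin n → ℝ) → ℝ) (g' : Fin n → (Fin n → ℝ) → ℝ) (R : ℝ) : Prop where
  c0 : Continuous g
  c1 : ∀ i, Continuous (g' i)
  der : ∀ i x, HasDerivAt (fun t => g (Function.update x i t)) (g' i x) (x i)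
  z : ∀ x i, R < |x i| → g x = 0 ∧ ∀ j, g' j x = 0

lemma W_pos (n : ℕ) (x : Fin n → ℝ) : 0 < W n x := Finset.prod_pos fun _ _ => w_pos _

lemma W_cont (n : ℕ) : Continuous (W n) := by
  unfold W
  exact continuous_finsetProd _ fun i _ => w_cont.comp (continuous_apply i)

lemma W_int (n : ℕ) : Integrable (W n) :=
  Integrable.fintype_prod (f := fun _ : Fin n => w) (fun _ => w_int)

lemma W_succ (n : ℕ) (t : ℝ) (y : Fin n → ℝ) :
    W (n + 1) (Fin.cons t y) = w t * W n y := by
  unfold W
  rw [Fin.prod_univ_succ]
  simp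

lemma cons_cont (n : ℕ) :
    Continuous fun p : ℝ × (Fin n → ℝ) => (Fin.cons p.1 p.2 : Fin (n + 1) → ℝ) := by
  refine continuous_pi fun i => ?_
  refine Fin.cases ?_ (fun j => ?_) i
  · simpa using continuous_fst
  · simp only [Fin.cons_succ]
    exact (continuous_apply j).comp continuous_snd

lemma fub (n : ℕ) (F : (Fin (n + 1) → ℝ) → ℝ) (hF : Integrable F) :
    Integrable (fun p : ℝ × (Fin n → ℝ) => F (Fin.cons p.1 p.2)) ∧
    ∫ x, F x = ∫ t, ∫ y : Fin n → ℝ, F (Fin.cons t y) ∧
    ∫ x, F x = ∫ y : Fin n → ℝ, ∫ t, F (Fin.cons t y) := by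
  have hmp := (volume_preserving_piFinSuccAbove (fun _ : Fin (n + 1) => ℝ) 0).symm
  have he : ∀ p : ℝ × (Fin n → ℝ),
      (MeasurableEquiv.piFinSuccAbove (fun _ : Fin (n + 1) => ℝ) 0).symm p = Fin.cons p.1 p.2 := by
    intro p
    simp [MeasurableEquiv.piFinSuccAbove]
    rfl
  have hi : Integrable (fun p : ℝ × (Fin n → ℝ) => F (Fin.cons p.1 p.2)) := by
    have := (hmp.integrable_comp_emb (MeasurableEquiv.measurableEmbedding _) (g := F)).2 hF
    refine this.congr (Eventually.of_forall fun p => ?_)
    simp only [Function.comp_apply, he]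
  have h1 : ∫ x, F x = ∫ p : ℝ × (Fin n → ℝ), F (Fin.cons p.1 p.2) := by
    rw [← hmp.integral_comp (MeasurableEquiv.measurableEmbedding _)]
    simp only [he]
  refine ⟨hi, ?_, ?_⟩
  · rw [h1]; exact integral_prod _ hi
  · rw [h1]; exact integral_prod_symm _ hi

lemma int_cs (n : ℕ) (R : ℝ) (F : (Fin n → ℝ) → ℝ) (hF : Continuous F)
    (h0 : ∀ x i, R < |x i| → F x = 0) : Integrable F := by
  apply hF.integrable_of_hasCompactSupport
  apply HasCompactSupport.of_support_subset_isCompact
    (isCompact_univ_pi (fun _ : Fin n => isCompact_Icc (a := -R) (b := R)))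
  intro x hx
  rw [mem_univ_pi]
  intro i
  by_contra hn
  apply hx
  apply h0 x i
  rw [lt_abs]
  rw [mem_Icc, not_and_or, not_le, not_le] at hn
  rcases hn with h | h
  · right; linarith
  · left; exact h

theorem lsiN (n : ℕ) : ∀ (Φ : (Fin n → ℝ) → ℝ) (M : ℝ), Continuous Φ → (∀ x, |Φ x| ≤ M) →
    ∀ (g : (Fin n → ℝ) → ℝ) (g' : Fin n → (Fin n → ℝ) → ℝ) (R : ℝ), Cl n g g' R →
    ∫ x, Φ x * g x ^ 2 * W n x ≤ 2 * (∫ x, (∑ i, g' i x ^ 2) * W n x) +
      Real.log ((∫ x, Real.exp (Φ x) * W n x) / cG ^ n) * ∫ x, g x ^ 2 * W n x := by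
  induction n with
  | zero =>
    intro Φ M hΦ hM g g' R hg
    have hv : (volume : Measure (Fin 0 → ℝ)).real univ = 1 := by
      simp [measureReal_def, volume_pi]
    have hW : ∀ x, W 0 x = 1 := by intro x; simp [W]
    simp only [hW, mul_one]
    simp only [integral_unique, hv, one_smul, pow_zero, div_one, Real.log_exp,
      Finset.univ_eq_empty, Finset.sum_empty, mul_zero, zero_add]
    exact le_refl _
  | succ n ih =>
    intro Φ M hΦ hM g g' R hg
    have hcc := cons_cont n
    have hc2 : ∀ y : Fin n → ℝ, Continuous fun t : ℝ => (Fin.cons t y : Fin (n + 1) → ℝ) :=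
      fun y => hcc.comp (continuous_id.prodMk continuous_const)
    have hc1 : ∀ t : ℝ, Continuous fun y : Fin n → ℝ => (Fin.cons t y : Fin (n + 1) → ℝ) :=
      fun t => hcc.comp (continuous_const.prodMk continuous_id)
    have hcp := cG_pos
    have hwc := w_cont
    have hWc := W_cont (n + 1)
    have hWc' := W_cont n
    -- integrability
    have iE : Integrable fun x => Real.exp (Φ x) * W (n + 1) x := by
      refine ((W_int (n + 1)).const_mul (Real.exp M)).mono'
        ((Real.continuous_exp.comp hΦ).mul hWc).aestronglyMeasurable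
        (Eventually.of_forall fun x => ?_)
      rw [Real.norm_eq_abs, abs_of_pos (mul_pos (Real.exp_pos _) (W_pos _ x))]
      exact mul_le_mul_of_nonneg_right (Real.exp_le_exp.2 ((le_abs_self _).trans (hM x)))
        (W_pos _ x).le
    have hgc := hg.c0
    have hgc' := hg.c1
    have i1 : Integrable fun x => Φ x * g x ^ 2 * W (n + 1) x :=
      int_cs _ R _ (by fun_prop) (fun x i hx => by simp [(hg.z x i hx).1])
    have i2 : Integrable fun x => g x ^ 2 * W (n + 1) x :=
      int_cs _ R _ (by fun_prop) (fun x i hx => by simp [(hg.z x i hx).1])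
    have i3 : ∀ j, Integrable fun x => g' j x ^ 2 * W (n + 1) x := fun j => by
      have := hgc' j
      exact int_cs _ R _ (by fun_prop) (fun x i hx => by simp [(hg.z x i hx).2 j])
    -- the function of one variable less
    set E1 : (Fin n → ℝ) → ℝ := fun y => ∫ t, Real.exp (Φ (Fin.cons t y)) * w t with hE1
    have iE1 : ∀ y, Integrable fun t => Real.exp (Φ (Fin.cons t y)) * w t := by
      intro y
      refine (w_int.const_mul (Real.exp M)).mono'
        ((Real.continuous_exp.comp (hΦ.comp (hc2 y))).mul hwc).aestronglyMeasurable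
        (Eventually.of_forall fun x => ?_)
      rw [Real.norm_eq_abs, abs_of_pos (mul_pos (Real.exp_pos _) (w_pos x))]
      exact mul_le_mul_of_nonneg_right (Real.exp_le_exp.2 ((le_abs_self _).trans (hM _)))
        (w_pos x).le
    have hE1c : Continuous E1 := by
      apply continuous_of_dominated (bound := fun t => Real.exp M * w t)
      · intro y; exact (iE1 y).aestronglyMeasurable
      · intro y
        refine Eventually.of_forall fun t => ?_
        rw [Real.norm_eq_abs, abs_of_pos (mul_pos (Real.exp_pos _) (w_pos t))]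
        exact mul_le_mul_of_nonneg_right (Real.exp_le_exp.2 ((le_abs_self _).trans (hM _)))
          (w_pos t).le
      · exact w_int.const_mul _
      · refine Eventually.of_forall fun t => ?_
        exact ((Real.continuous_exp.comp (hΦ.comp (hc1 t))).mul continuous_const)
    have hcG : (∫ t, w t) = cG := rfl
    have hE1lo : ∀ y, Real.exp (-M) * cG ≤ E1 y := by
      intro y
      rw [← hcG, ← integral_const_mul]
      refine integral_mono (w_int.const_mul _) (iE1 y) fun t => ?_
      exact mul_le_mul_of_nonneg_right (Real.exp_le_exp.2 (abs_le.1 (hM _)).1) (w_pos t).le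
    have hE1hi : ∀ y, E1 y ≤ Real.exp M * cG := by
      intro y
      rw [← hcG, ← integral_const_mul]
      refine integral_mono (iE1 y) (w_int.const_mul _) fun t => ?_
      exact mul_le_mul_of_nonneg_right (Real.exp_le_exp.2 (abs_le.1 (hM _)).2) (w_pos t).le
    have hE1p : ∀ y, 0 < E1 y / cG := fun y =>
      div_pos ((mul_pos (Real.exp_pos _) hcp).trans_le (hE1lo y)) hcp
    set Φ1 : (Fin n → ℝ) → ℝ := fun y => Real.log (E1 y / cG) with hΦ1
    have hΦ1c : Continuous Φ1 := (hE1c.div_const _).log fun y => (hE1p y).ne'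
    have hΦ1M : ∀ y, |Φ1 y| ≤ M := by
      intro y
      rw [abs_le]
      constructor
      · rw [hΦ1, Real.le_log_iff_exp_le (hE1p y), le_div_iff₀ hcp]
        exact hE1lo y
      · rw [hΦ1, Real.log_le_iff_le_exp (hE1p y), div_le_iff₀ hcp]
        exact hE1hi y
    -- sections
    have hsec : ∀ t, Cl n (fun y => g (Fin.cons t y)) (fun i y => g' i.succ (Fin.cons t y)) R := by
      intro t
      refine ⟨hgc.comp (hc1 t), fun i => (hgc' _).comp (hc1 t), fun i y => ?_, fun y i hy => ?_⟩
      · have h := hg.der i.succ (Fin.cons t y)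
        simp only [Fin.cons_succ] at h
        refine h.congr_of_eventuallyEq (Eventually.of_forall fun s => ?_)
        simp only [Fin.cons_update]
      · have h := hg.z (Fin.cons t y) i.succ (by simpa using hy)
        exact ⟨h.1, fun j => h.2 _⟩
    -- step 1
    have hs1 : ∀ y : Fin n → ℝ, (∫ t, Φ (Fin.cons t y) * g (Fin.cons t y) ^ 2 * w t) ≤
        2 * (∫ t, g' 0 (Fin.cons t y) ^ 2 * w t) +
          Φ1 y * ∫ t, g (Fin.cons t y) ^ 2 * w t := by
      intro y
      refine lsi1 (fun t => Φ (Fin.cons t y)) (hΦ.comp (hc2 y)) M (fun t => hM _)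
        (fun t => g (Fin.cons t y)) (fun t => g' 0 (Fin.cons t y)) (fun t => ?_)
        ((hgc' 0).comp (hc2 y)) R (fun t ht => ?_)
      · have h := hg.der 0 (Fin.cons t y)
        simp only [Fin.cons_zero] at h
        refine h.congr_of_eventuallyEq (Eventually.of_forall fun s => ?_)
        simp only [Fin.update_cons_zero]
      · have h := hg.z (Fin.cons t y) 0 (by simpa using ht)
        exact ⟨h.1, h.2 _⟩
    -- Fubini
    have hW2 : ∀ (F : (Fin (n + 1) → ℝ) → ℝ) (t : ℝ) (y : Fin n → ℝ),
        F (Fin.cons t y) * W (n + 1) (Fin.cons t y) = F (Fin.cons t y) * w t * W n y := by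
      intro F t y; rw [W_succ]; ring
    obtain ⟨j1, -, f1⟩ := fub n _ i1
    obtain ⟨j2, f2', f2⟩ := fub n _ i2
    obtain ⟨j3, f3', f3⟩ := fub n _ (i3 0)
    obtain ⟨jE, -, fE⟩ := fub n _ iE
    have g1 : ∫ x, Φ x * g x ^ 2 * W (n + 1) x =
        ∫ y, (∫ t, Φ (Fin.cons t y) * g (Fin.cons t y) ^ 2 * w t) * W n y := by
      rw [f1]
      refine integral_congr_ae (Eventually.of_forall fun y => ?_)
      simp only
      rw [← integral_mul_const]
      refine integral_congr_ae (Eventually.of_forall fun t => ?_)
      simp only [W_succ]; ring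
    have g2 : ∫ x, g x ^ 2 * W (n + 1) x =
        ∫ y, (∫ t, g (Fin.cons t y) ^ 2 * w t) * W n y := by
      rw [f2]
      refine integral_congr_ae (Eventually.of_forall fun y => ?_)
      simp only
      rw [← integral_mul_const]
      refine integral_congr_ae (Eventually.of_forall fun t => ?_)
      simp only [W_succ]; ring
    have g2' : ∫ x, g x ^ 2 * W (n + 1) x =
        ∫ t, (∫ y : Fin n → ℝ, g (Fin.cons t y) ^ 2 * W n y) * w t := by
      rw [f2']
      refine integral_congr_ae (Eventually.of_forall fun y => ?_)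
      simp only
      rw [← integral_mul_const]
      refine integral_congr_ae (Eventually.of_forall fun t => ?_)
      simp only [W_succ]; ring
    have g3 : ∫ x, g' 0 x ^ 2 * W (n + 1) x =
        ∫ y, (∫ t, g' 0 (Fin.cons t y) ^ 2 * w t) * W n y := by
      rw [f3]
      refine integral_congr_ae (Eventually.of_forall fun y => ?_)
      simp only
      rw [← integral_mul_const]
      refine integral_congr_ae (Eventually.of_forall fun t => ?_)
      simp only [W_succ]; ring
    have gE : ∫ x, Real.exp (Φ x) * W (n + 1) x = cG * ∫ y, Real.exp (Φ1 y) * W n y := by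
      rw [fE, ← integral_const_mul]
      refine integral_congr_ae (Eventually.of_forall fun y => ?_)
      simp only
      rw [hΦ1, Real.exp_log (hE1p y), ← mul_assoc, mul_div_cancel₀ _ hcp.ne', hE1,
        ← integral_mul_const]
      refine integral_congr_ae (Eventually.of_forall fun t => ?_)
      simp only [W_succ]; ring
    -- integrability of the partial integrals
    have k1 : Integrable fun y => (∫ t, Φ (Fin.cons t y) * g (Fin.cons t y) ^ 2 * w t) * W n y := by
      refine j1.integral_prod_right.congr (Eventually.of_forall fun y => ?_)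
      simp only
      rw [← integral_mul_const]
      refine integral_congr_ae (Eventually.of_forall fun t => ?_)
      simp only [W_succ]; ring
    have k3 : Integrable fun y => (∫ t, g' 0 (Fin.cons t y) ^ 2 * w t) * W n y := by
      refine j3.integral_prod_right.congr (Eventually.of_forall fun y => ?_)
      simp only
      rw [← integral_mul_const]
      refine integral_congr_ae (Eventually.of_forall fun t => ?_)
      simp only [W_succ]; ring
    -- the function Φ1 g²
    have i4 : Integrable fun x : Fin (n + 1) → ℝ =>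
        Φ1 (fun i => x i.succ) * g x ^ 2 * W (n + 1) x := by
      have : Continuous fun x : Fin (n + 1) → ℝ => Φ1 (fun i => x i.succ) :=
        hΦ1c.comp (continuous_pi fun i => continuous_apply _)
      exact int_cs _ R _ (by fun_prop) (fun x i hx => by simp [(hg.z x i hx).1])
    obtain ⟨j4, f4', f4⟩ := fub n _ i4
    have g4 : ∫ x : Fin (n + 1) → ℝ, Φ1 (fun i => x i.succ) * g x ^ 2 * W (n + 1) x =
        ∫ y, (Φ1 y * ∫ t, g (Fin.cons t y) ^ 2 * w t) * W n y := by
      rw [f4]
      refine integral_congr_ae (Eventually.of_forall fun y => ?_)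
      simp only
      rw [← integral_const_mul, ← integral_mul_const]
      refine integral_congr_ae (Eventually.of_forall fun t => ?_)
      simp only [W_succ, Fin.cons_succ]; ring
    have k4 : Integrable fun y => (Φ1 y * ∫ t, g (Fin.cons t y) ^ 2 * w t) * W n y := by
      refine j4.integral_prod_right.congr (Eventually.of_forall fun y => ?_)
      simp only
      rw [← integral_const_mul, ← integral_mul_const]
      refine integral_congr_ae (Eventually.of_forall fun t => ?_)
      simp only [W_succ, Fin.cons_succ]; ring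
    have g4' : ∫ x : Fin (n + 1) → ℝ, Φ1 (fun i => x i.succ) * g x ^ 2 * W (n + 1) x =
        ∫ t, (∫ y : Fin n → ℝ, Φ1 y * g (Fin.cons t y) ^ 2 * W n y) * w t := by
      rw [f4']
      refine integral_congr_ae (Eventually.of_forall fun y => ?_)
      simp only
      rw [← integral_mul_const]
      refine integral_congr_ae (Eventually.of_forall fun t => ?_)
      simp only [W_succ, Fin.cons_succ]; ring
    have k4' : Integrable fun t => (∫ y : Fin n → ℝ, Φ1 y * g (Fin.cons t y) ^ 2 * W n y) * w t := by
      refine j4.integral_prod_left.congr (Eventually.of_forall fun y => ?_)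
      simp only
      rw [← integral_mul_const]
      refine integral_congr_ae (Eventually.of_forall fun t => ?_)
      simp only [W_succ, Fin.cons_succ]; ring
    have k2' : Integrable fun t => (∫ y : Fin n → ℝ, g (Fin.cons t y) ^ 2 * W n y) * w t := by
      refine j2.integral_prod_left.congr (Eventually.of_forall fun y => ?_)
      simp only
      rw [← integral_mul_const]
      refine integral_congr_ae (Eventually.of_forall fun t => ?_)
      simp only [W_succ]; ring
    -- the remaining derivatives
    have i5 : Integrable fun x : Fin (n + 1) → ℝ =>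
        (∑ i : Fin n, g' i.succ x ^ 2) * W (n + 1) x := by
      simp only [Finset.sum_mul]
      exact integrable_finsetSum _ fun i _ => i3 _
    obtain ⟨j5, f5', f5⟩ := fub n _ i5
    have g5' : ∫ x : Fin (n + 1) → ℝ, (∑ i : Fin n, g' i.succ x ^ 2) * W (n + 1) x =
        ∫ t, (∫ y : Fin n → ℝ, (∑ i : Fin n, g' i.succ (Fin.cons t y) ^ 2) * W n y) * w t := by
      rw [f5']
      refine integral_congr_ae (Eventually.of_forall fun y => ?_)
      simp only
      rw [← integral_mul_const]
      refine integral_congr_ae (Eventually.of_forall fun t => ?_)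
      simp only [W_succ]; ring
    have k5' : Integrable fun t =>
        (∫ y : Fin n → ℝ, (∑ i : Fin n, g' i.succ (Fin.cons t y) ^ 2) * W n y) * w t := by
      refine j5.integral_prod_left.congr (Eventually.of_forall fun y => ?_)
      simp only
      rw [← integral_mul_const]
      refine integral_congr_ae (Eventually.of_forall fun t => ?_)
      simp only [W_succ]; ring
    -- combine
    have A1 : ∫ x, Φ x * g x ^ 2 * W (n + 1) x ≤ 2 * (∫ x, g' 0 x ^ 2 * W (n + 1) x) +
        ∫ x : Fin (n + 1) → ℝ, Φ1 (fun i => x i.succ) * g x ^ 2 * W (n + 1) x := by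
      rw [g1, g3, g4, ← integral_const_mul, ← integral_add (k3.const_mul 2) k4]
      refine integral_mono k1 ((k3.const_mul 2).add k4) fun y => ?_
      have := mul_le_mul_of_nonneg_right (hs1 y) (W_pos n y).le
      simp only
      calc _ ≤ _ := this
        _ = _ := by ring
    set ℓ := Real.log ((∫ y, Real.exp (Φ1 y) * W n y) / cG ^ n) with hℓ
    have A2 : ∫ x : Fin (n + 1) → ℝ, Φ1 (fun i => x i.succ) * g x ^ 2 * W (n + 1) x ≤
        2 * (∫ x : Fin (n + 1) → ℝ, (∑ i : Fin n, g' i.succ x ^ 2) * W (n + 1) x) +
          ℓ * ∫ x, g x ^ 2 * W (n + 1) x := by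
      rw [g4', g5', g2', ← integral_const_mul, ← integral_const_mul,
        ← integral_add (k5'.const_mul 2) (k2'.const_mul ℓ)]
      refine integral_mono k4' ((k5'.const_mul 2).add (k2'.const_mul ℓ)) fun t => ?_
      have := mul_le_mul_of_nonneg_right (ih Φ1 M hΦ1c hΦ1M _ _ R (hsec t)) (w_pos t).le
      simp only
      calc _ ≤ _ := this
        _ = _ := by ring
    have hsum : ∫ x, (∑ i, g' i x ^ 2) * W (n + 1) x = (∫ x, g' 0 x ^ 2 * W (n + 1) x) +
        ∫ x : Fin (n + 1) → ℝ, (∑ i : Fin n, g' i.succ x ^ 2) * W (n + 1) x := by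
      rw [← integral_add (i3 0) i5]
      refine integral_congr_ae (Eventually.of_forall fun x => ?_)
      simp only
      rw [Fin.sum_univ_succ]; ring
    have hlog : Real.log ((∫ x, Real.exp (Φ x) * W (n + 1) x) / cG ^ (n + 1)) = ℓ := by
      rw [gE, hℓ, pow_succ]
      congr 1
      rw [mul_comm (cG ^ n) cG, mul_div_mul_left _ _ hcp.ne']
    rw [hlog, hsum]
    linarith

end Pool.Agent.H83.LSD
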