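import Pool.Agent.H37.LQ.GR
import Pool.Agent.H83.LSD.A2

set_option autoImplicit false

/-!
# Gaussian logarithmic Sobolev inequality in dual form, bounded measurable potentials
-/

open MeasureTheory Set Filter Topology

namespace Pool.Agent.H83.LSD

open Pool.Agent.H85.LK (E)

/-- gaussian weight -/
noncomputable def ga (N : ℕ) (x : E N) : ℝ := Real.exp (-‖x‖ ^ 2 / 2)

lemma ga_pos {N : ℕ} (x : E N) : 0 < ga N x := Real.exp_pos _

lemma ga_cont (N : ℕ) : Continuous (ga N) := by
  unfold ga; fun_prop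

lemma W_ofLp {N : ℕ} (x : Fin N → ℝ) : W N x = ga N (WithLp.toLp 2 x) := by
  unfold W ga w
  rw [EuclideanSpace.norm_sq_eq, ← Real.exp_sum, ← Finset.sum_neg_distrib, Finset.sum_div]
  simp

lemma intE {N : ℕ} (F : E N → ℝ) :
    ∫ y : Fin N → ℝ, F (WithLp.toLp 2 y) = ∫ x, F x :=
  (PiLp.volume_preserving_toLp (Fin N)).integral_comp
    (MeasurableEquiv.toLp 2 (Fin N → ℝ)).measurableEmbedding F

lemma integrableE {N : ℕ} (F : E N → ℝ) (h : Integrable fun y : Fin N → ℝ => F (WithLp.toLp 2 y)) :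
    Integrable F :=
  ((PiLp.volume_preserving_toLp (Fin N)).integrable_comp_emb
    (MeasurableEquiv.toLp 2 (Fin N → ℝ)).measurableEmbedding).1 h

lemma ga_int (N : ℕ) : Integrable (ga N) := by
  apply integrableE
  refine (W_int N).congr (Eventually.of_forall fun y => ?_)
  exact W_ofLp y

theorem lgC (N : ℕ) (Φ : E N → ℝ) (M : ℝ) (hΦ : Continuous Φ) (hM : ∀ x, |Φ x| ≤ M)
    (h : E N → ℝ) (hh : ContDiff ℝ 1 h) (hs : HasCompactSupport h) :
    ∫ x, Φ x * h x ^ 2 * ga N x ≤ 2 * (∫ x, ‖fderiv ℝ h x‖ ^ 2 * ga N x) +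
      Real.log ((∫ x, Real.exp (Φ x) * ga N x) / cG ^ N) * ∫ x, h x ^ 2 * ga N x := by
  have ht : Continuous (WithLp.toLp 2 : (Fin N → ℝ) → E N) := PiLp.continuous_toLp 2 _
  have hfc : Continuous fun x => fderiv ℝ h x := hh.continuous_fderiv (by norm_num)
  obtain ⟨R, hR⟩ : ∃ R : ℝ, ∀ x : E N, R < ‖x‖ → h x = 0 ∧ fderiv ℝ h x = 0 := by
    obtain ⟨R, hR⟩ := hs.isCompact.isBounded.subset_closedBall (0 : E N)
    refine ⟨R, fun x hx => ?_⟩
    have hx' : x ∉ tsupport h := by
      intro hc
      have := hR hc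
      rw [mem_closedBall_zero_iff] at this
      linarith
    constructor
    · exact image_eq_zero_of_notMem_tsupport hx'
    · have := notMem_tsupport_iff_eventuallyEq.1 hx'
      rw [this.fderiv_eq]
      simp
  have hcl : Cl N (fun y => h (WithLp.toLp 2 y))
      (fun i y => fderiv ℝ h (WithLp.toLp 2 y) (EuclideanSpace.single i 1)) R := by
    refine ⟨hh.continuous.comp ht, fun i => ?_, fun i y => ?_, fun y i hy => ?_⟩
    · exact (hfc.comp ht).clm_apply continuous_const
    · have h1 : HasFDerivAt h (fderiv ℝ h (WithLp.toLp 2 y)) (WithLp.toLp 2 y) :=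
        ((hh.differentiable (by norm_num)) _).hasFDerivAt
      have h2 : ∀ t, (WithLp.toLp 2 (Function.update y i t) : E N) =
          WithLp.toLp 2 y + (t - y i) • EuclideanSpace.single i (1 : ℝ) := by
        intro t
        ext k
        by_cases hk : k = i
        · subst hk; simp
        · simp [hk]
      have h3 : HasDerivAt (fun t : ℝ => (WithLp.toLp 2 y : E N) +
          (t - y i) • EuclideanSpace.single i (1 : ℝ)) (EuclideanSpace.single i (1 : ℝ)) (y i) := by
        have := (((hasDerivAt_id (y i)).sub_const (y i)).smul_const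
          (EuclideanSpace.single i (1 : ℝ) : E N)).const_add (WithLp.toLp 2 y : E N)
        simpa using this
      have h4 : HasDerivAt (fun t => h (WithLp.toLp 2 (Function.update y i t)))
          (fderiv ℝ h (WithLp.toLp 2 y) (EuclideanSpace.single i 1)) (y i) := by
        simp only [h2]
        have h5 : HasFDerivAt h (fderiv ℝ h (WithLp.toLp 2 y))
            ((WithLp.toLp 2 y : E N) + (y i - y i) • EuclideanSpace.single i (1 : ℝ)) := by
          simpa using h1
        exact h5.comp_hasDerivAt (y i) h3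
      exact h4
    · have h1 : |y i| ≤ ‖(WithLp.toLp 2 y : E N)‖ := by
        have := PiLp.norm_apply_le (WithLp.toLp 2 y : E N) i
        simpa using this
      obtain ⟨h2, h3⟩ := hR (WithLp.toLp 2 y) (hy.trans_le h1)
      exact ⟨h2, fun j => by simp [h3]⟩
  have key := lsiN N (fun y => Φ (WithLp.toLp 2 y)) M (hΦ.comp ht) (fun y => hM _) _ _ R hcl
  simp only [W_ofLp] at key
  have e1 := intE (fun x : E N => Φ x * h x ^ 2 * ga N x)
  have e2 := intE (fun x : E N => ‖fderiv ℝ h x‖ ^ 2 * ga N x)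
  have e3 := intE (fun x : E N => Real.exp (Φ x) * ga N x)
  have e4 := intE (fun x : E N => h x ^ 2 * ga N x)
  simp only [Pool.Agent.H37.LQ.GR_norm] at e2 ⊢
  rw [← e1, ← e2, ← e3, ← e4]
  exact key

theorem lg (N : ℕ) (Φ : E N → ℝ) (M : ℝ) (hΦ : Measurable Φ) (hM : ∀ x, |Φ x| ≤ M)
    (h : E N → ℝ) (hh : ContDiff ℝ 1 h) (hs : HasCompactSupport h) :
    ∫ x, Φ x * h x ^ 2 * ga N x ≤ 2 * (∫ x, ‖fderiv ℝ h x‖ ^ 2 * ga N x) +
      Real.log ((∫ x, Real.exp (Φ x) * ga N x) / cG ^ N) * ∫ x, h x ^ 2 * ga N x := by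
  have hgi := ga_int N
  have hgc := ga_cont N
  obtain ⟨H, hH⟩ : ∃ H, ∀ x, |h x ^ 2| ≤ H := by
    obtain ⟨H, hH⟩ := hs.exists_bound_of_continuous hh.continuous
    refine ⟨H ^ 2, fun x => ?_⟩
    rw [abs_pow]
    exact pow_le_pow_left₀ (abs_nonneg _) (by simpa using hH x) 2
  have hH0 : 0 ≤ H := (abs_nonneg _).trans (hH 0)
  have hM0 : 0 ≤ M := (abs_nonneg _).trans (hM 0)
  set Q := ∫ x, h x ^ 2 * ga N x with hQ
  have hQ0 : 0 ≤ Q := integral_nonneg fun x => mul_nonneg (sq_nonneg _) (ga_pos x).le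
  set I := ∫ x, Real.exp (Φ x) * ga N x with hI
  have iE : ∀ Ψ : E N → ℝ, Measurable Ψ → (∀ x, |Ψ x| ≤ M) →
      Integrable fun x => Real.exp (Ψ x) * ga N x := by
    intro Ψ h1 h2
    refine (hgi.const_mul (Real.exp M)).mono'
      ((Real.measurable_exp.comp h1).mul hgc.measurable).aestronglyMeasurable
      (Eventually.of_forall fun x => ?_)
    rw [Real.norm_eq_abs, abs_of_pos (mul_pos (Real.exp_pos _) (ga_pos x))]
    exact mul_le_mul_of_nonneg_right (Real.exp_le_exp.2 ((le_abs_self _).trans (h2 x)))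
      (ga_pos x).le
  have iH : ∀ Ψ : E N → ℝ, Measurable Ψ → (∀ x, |Ψ x| ≤ M) →
      Integrable fun x => Ψ x * h x ^ 2 * ga N x := by
    intro Ψ h1 h2
    refine (hgi.const_mul (M * H)).mono'
      ((h1.mul (hh.continuous.measurable.pow_const 2)).mul hgc.measurable).aestronglyMeasurable
      (Eventually.of_forall fun x => ?_)
    rw [Real.norm_eq_abs, abs_mul, abs_mul, abs_of_pos (ga_pos x)]
    exact mul_le_mul_of_nonneg_right (mul_le_mul (h2 x) (hH x) (abs_nonneg _) hM0) (ga_pos x).le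
  have hI0 : 0 < I := by
    have h1 : ∀ x, 0 < Real.exp (Φ x) * ga N x := fun x => mul_pos (Real.exp_pos _) (ga_pos x)
    rw [hI, integral_pos_iff_support_of_nonneg (fun x => (h1 x).le) (iE Φ hΦ hM)]
    have : Function.support (fun x => Real.exp (Φ x) * ga N x) = univ := by
      ext x; simp [(ga_pos x).ne']
    rw [this]
    exact isOpen_univ.measure_pos volume univ_nonempty
  have hcN : 0 < cG ^ N := pow_pos cG_pos N
  -- approximation
  have happ : ∀ ε : ℝ, 0 < ε → ∃ Ψ : E N → ℝ, Continuous Ψ ∧ (∀ x, |Ψ x| ≤ M) ∧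
      ∫ x, |Φ x - Ψ x| * ga N x ≤ ε := by
    intro ε hε
    set ν : Measure (E N) := volume.withDensity fun x => ENNReal.ofReal (ga N x) with hν
    have : IsFiniteMeasure ν := by
      constructor
      rw [hν, withDensity_apply _ MeasurableSet.univ, Measure.restrict_univ]
      exact hgi.lintegral_lt_top
    have hint : ∀ F : E N → ℝ, ∫ x, F x ∂ν = ∫ x, F x * ga N x := by
      intro F
      rw [hν, integral_withDensity_eq_integral_toReal_smul₀
        hgc.measurable.ennreal_ofReal.aemeasurable (by simp)]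
      refine integral_congr_ae (Eventually.of_forall fun x => ?_)
      simp only [ENNReal.toReal_ofReal (ga_pos x).le, smul_eq_mul]
      ring
    have hΦi : Integrable Φ ν := by
      refine (integrable_const M).mono' hΦ.aestronglyMeasurable (Eventually.of_forall fun x => ?_)
      exact hM x
    obtain ⟨ψ, hψ, hψi⟩ := hΦi.exists_boundedContinuous_integral_sub_le hε
    refine ⟨fun x => max (min (ψ x) M) (-M), by fun_prop, fun x => ?_, ?_⟩
    · rw [abs_le]
      exact ⟨le_max_right _ _, max_le (min_le_right _ _) (by linarith)⟩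
    · refine le_trans ?_ hψ
      rw [← hint]
      refine integral_mono_of_nonneg (Eventually.of_forall fun x => abs_nonneg _)
        (hΦi.sub hψi).norm (Eventually.of_forall fun x => ?_)
      have h1 := abs_le.1 (hM x)
      have h2 : max (min (Φ x) M) (-M) = Φ x := by
        rw [min_eq_left h1.2, max_eq_left h1.1]
      simp only [Real.norm_eq_abs]
      conv_lhs => rw [← h2]
      refine (abs_max_sub_max_le_abs _ _ _).trans ?_
      exact abs_min_sub_min_le_max _ _ _ _ |>.trans (by simp)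
  have hall : ∀ ε : ℝ, 0 < ε → ∫ x, Φ x * h x ^ 2 * ga N x ≤
      H * ε + (2 * (∫ x, ‖fderiv ℝ h x‖ ^ 2 * ga N x) +
        Real.log ((I + Real.exp M * ε) / cG ^ N) * Q) := by
    intro ε hε
    obtain ⟨Ψ, hΨ, hΨM, hΨe⟩ := happ ε hε
    have k1 := lgC N Ψ M hΨ hΨM h hh hs
    have iD : Integrable fun x => |Φ x - Ψ x| * ga N x := by
      refine (hgi.const_mul (2 * M)).mono'
        (((hΦ.sub hΨ.measurable).norm).mul hgc.measurable).aestronglyMeasurable
        (Eventually.of_forall fun x => ?_)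
      rw [Real.norm_eq_abs, abs_mul, abs_abs, abs_of_pos (ga_pos x)]
      refine mul_le_mul_of_nonneg_right ?_ (ga_pos x).le
      have h1 := abs_le.1 (hM x)
      have h2 := abs_le.1 (hΨM x)
      rw [abs_le]; constructor <;> linarith
    have k2 : ∫ x, Φ x * h x ^ 2 * ga N x ≤ (∫ x, Ψ x * h x ^ 2 * ga N x) + H * ε := by
      have h1 : ∫ x, Φ x * h x ^ 2 * ga N x ≤
          ∫ x, (Ψ x * h x ^ 2 * ga N x + H * (|Φ x - Ψ x| * ga N x)) := by
        refine integral_mono (iH Φ hΦ hM) ((iH Ψ hΨ.measurable hΨM).add (iD.const_mul H)) fun x => ?_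
        have h2 : (Φ x - Ψ x) * h x ^ 2 ≤ |Φ x - Ψ x| * H :=
          (le_abs_self _).trans (by
            rw [abs_mul]; exact mul_le_mul_of_nonneg_left (hH x) (abs_nonneg _))
        have h3 := mul_le_mul_of_nonneg_right h2 (ga_pos x).le
        simp only
        nlinarith [h3]
      rw [integral_add (iH Ψ hΨ.measurable hΨM) (iD.const_mul H), integral_const_mul] at h1
      have := mul_le_mul_of_nonneg_left hΨe hH0
      linarith
    have k3 : ∫ x, Real.exp (Ψ x) * ga N x ≤ I + Real.exp M * ε := by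
      have h1 : ∫ x, Real.exp (Ψ x) * ga N x ≤
          ∫ x, (Real.exp (Φ x) * ga N x + Real.exp M * (|Φ x - Ψ x| * ga N x)) := by
        refine integral_mono (iE Ψ hΨ.measurable hΨM) ((iE Φ hΦ hM).add (iD.const_mul _)) fun x => ?_
        have h2 : Real.exp (Ψ x) ≤ Real.exp (Φ x) + Real.exp M * |Φ x - Ψ x| := by
          rcases le_total (Ψ x) (Φ x) with hc | hc
          · have := Real.exp_le_exp.2 hc
            have h4 : 0 ≤ Real.exp M * |Φ x - Ψ x| := by positivity
            linarith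
          · have h4 : Real.exp (Φ x - Ψ x) ≥ (Φ x - Ψ x) + 1 := Real.add_one_le_exp _
            have h5 : Real.exp (Φ x) = Real.exp (Ψ x) * Real.exp (Φ x - Ψ x) := by
              rw [← Real.exp_add]; congr 1; ring
            have h6 : Real.exp (Ψ x) ≤ Real.exp M :=
              Real.exp_le_exp.2 (abs_le.1 (hΨM x)).2
            have h7 : |Φ x - Ψ x| = Ψ x - Φ x := by
              rw [abs_sub_comm, abs_of_nonneg]; linarith
            rw [h7]
            nlinarith [Real.exp_pos (Ψ x)]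
        have h3 := mul_le_mul_of_nonneg_right h2 (ga_pos x).le
        simp only
        nlinarith [h3]
      rw [integral_add (iE Φ hΦ hM) (iD.const_mul _), integral_const_mul] at h1
      have := mul_le_mul_of_nonneg_left hΨe (Real.exp_pos M).le
      linarith
    have hI1 : 0 < ∫ x, Real.exp (Ψ x) * ga N x := by
      have h1 : ∀ x, 0 < Real.exp (Ψ x) * ga N x := fun x => mul_pos (Real.exp_pos _) (ga_pos x)
      rw [integral_pos_iff_support_of_nonneg (fun x => (h1 x).le) (iE Ψ hΨ.measurable hΨM)]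
      have : Function.support (fun x => Real.exp (Ψ x) * ga N x) = univ := by
        ext x; simp [(ga_pos x).ne']
      rw [this]
      exact isOpen_univ.measure_pos volume univ_nonempty
    have k4 : Real.log ((∫ x, Real.exp (Ψ x) * ga N x) / cG ^ N) * Q ≤
        Real.log ((I + Real.exp M * ε) / cG ^ N) * Q := by
      refine mul_le_mul_of_nonneg_right ?_ hQ0
      exact Real.log_le_log (div_pos hI1 hcN) (div_le_div_of_nonneg_right k3 hcN.le)
    linarith
  -- limit
  have hlim : Tendsto (fun ε : ℝ => H * ε + (2 * (∫ x, ‖fderiv ℝ h x‖ ^ 2 * ga N x) +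
      Real.log ((I + Real.exp M * ε) / cG ^ N) * Q)) (𝓝[>] 0)
      (𝓝 (H * 0 + (2 * (∫ x, ‖fderiv ℝ h x‖ ^ 2 * ga N x) +
      Real.log ((I + Real.exp M * 0) / cG ^ N) * Q))) := by
    have hc : ContinuousAt (fun ε : ℝ => H * ε + (2 * (∫ x, ‖fderiv ℝ h x‖ ^ 2 * ga N x) +
        Real.log ((I + Real.exp M * ε) / cG ^ N) * Q)) 0 := by
      have h1 : (I + Real.exp M * 0) / cG ^ N ≠ 0 := by
        rw [mul_zero, add_zero]; exact (div_pos hI0 hcN).ne'
      have h2 : ContinuousAt (fun ε : ℝ => (I + Real.exp M * ε) / cG ^ N) 0 := by fun_prop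
      have h3 := h2.log h1
      fun_prop (disch := assumption)
    exact hc.tendsto.mono_left nhdsWithin_le_nhds
  have hfin := ge_of_tendsto hlim (by
    filter_upwards [self_mem_nhdsWithin] with ε hε
    exact hall ε hε)
  simpa using hfin

end Pool.Agent.H83.LSD
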