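import Mathlib

set_option autoImplicit false

/-!
# Radial cut-off functions and gaussian moments
-/

open MeasureTheory Set Filter Topology

namespace Pool.Agent.H83.LSD

/-- gaussian moments -/
noncomputable def mom (p : ℕ) : ℝ := ∫ r in Ioi (0 : ℝ), r ^ p * Real.exp (-r ^ 2 / 2)

lemma mi (p : ℕ) : IntegrableOn (fun r : ℝ => r ^ p * Real.exp (-r ^ 2 / 2)) (Ioi 0) := by
  have h := integrableOn_rpow_mul_exp_neg_mul_sq (show (0 : ℝ) < 1 / 2 by norm_num)
    (show (-1 : ℝ) < (p : ℝ) by have : (0 : ℝ) ≤ p := Nat.cast_nonneg p; linarith)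
  refine h.congr_fun (fun r _ => ?_) measurableSet_Ioi
  simp only [Real.rpow_natCast]
  congr 2
  ring

lemma mom_eq (p : ℕ) : mom p =
    (1 / 2 : ℝ) ^ (-((p : ℝ) + 1) / 2) * (1 / 2) * Real.Gamma (((p : ℝ) + 1) / 2) := by
  have h := integral_rpow_mul_exp_neg_mul_rpow (p := 2) (q := (p : ℝ)) (b := 1 / 2)
    (by norm_num) (by have : (0 : ℝ) ≤ p := Nat.cast_nonneg p; linarith) (by norm_num)
  rw [← h]
  unfold mom
  refine setIntegral_congr_fun measurableSet_Ioi (fun r _ => ?_)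
  simp only [Real.rpow_natCast, Real.rpow_two]
  congr 2
  ring

lemma mom_rec (p : ℕ) : mom (p + 2) = ((p : ℝ) + 1) * mom p := by
  rw [mom_eq, mom_eq]
  have h0 : (0 : ℝ) ≤ p := Nat.cast_nonneg p
  have h1 : (((p + 2 : ℕ) : ℝ) + 1) / 2 = ((p : ℝ) + 1) / 2 + 1 := by push_cast; ring
  have h2 : -(((p + 2 : ℕ) : ℝ) + 1) / 2 = -((p : ℝ) + 1) / 2 + (-1) := by push_cast; ring
  rw [h1, h2, Real.Gamma_add_one (by positivity), Real.rpow_add (by norm_num),
    Real.rpow_neg_one]
  ring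

lemma mom_pos (p : ℕ) : 0 < mom p := by
  rw [mom_eq]
  have h0 : (0 : ℝ) ≤ p := Nat.cast_nonneg p
  have : 0 < Real.Gamma (((p : ℝ) + 1) / 2) := Real.Gamma_pos_of_pos (by positivity)
  positivity

/-- the cut-off functions -/
noncomputable def chi (n : ℕ) (r : ℝ) : ℝ :=
  Real.smoothTransition ((n + 1) * r - 1) * Real.smoothTransition (n + 2 - r)

/-- the derivatives of the cut-off functions -/
noncomputable def chi' (n : ℕ) (r : ℝ) : ℝ :=
  (n + 1) * deriv Real.smoothTransition ((n + 1) * r - 1) * Real.smoothTransition (n + 2 - r) -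
    Real.smoothTransition ((n + 1) * r - 1) * deriv Real.smoothTransition (n + 2 - r)

lemma S_diff : Differentiable ℝ Real.smoothTransition :=
  (Real.smoothTransition.contDiff (n := 1)).differentiable (by norm_num)

lemma S'_cont : Continuous (deriv Real.smoothTransition) :=
  (Real.smoothTransition.contDiff (n := 1)).continuous_deriv (by norm_num)

lemma S'_neg {x : ℝ} (hx : x < 0) : deriv Real.smoothTransition x = 0 := by
  have h : Real.smoothTransition =ᶠ[𝓝 x] fun _ => (0 : ℝ) := by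
    filter_upwards [gt_mem_nhds hx] with y hy
    exact Real.smoothTransition.zero_of_nonpos hy.le
  rw [h.deriv_eq]; simp

lemma S'_big {x : ℝ} (hx : 1 < x) : deriv Real.smoothTransition x = 0 := by
  have h : Real.smoothTransition =ᶠ[𝓝 x] fun _ => (1 : ℝ) := by
    filter_upwards [lt_mem_nhds hx] with y hy
    exact Real.smoothTransition.one_of_one_le hy.le
  rw [h.deriv_eq]; simp

lemma S'_bdd : ∃ C : ℝ, 0 ≤ C ∧ ∀ x, |deriv Real.smoothTransition x| ≤ C := by
  obtain ⟨C, hC⟩ := isCompact_Icc (a := (0 : ℝ)) (b := 1) |>.exists_bound_of_continuousOn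
    S'_cont.continuousOn
  have hC0 : 0 ≤ C := (norm_nonneg _).trans (hC 0 (by simp))
  refine ⟨C, hC0, fun x => ?_⟩
  by_cases hx : x < 0
  · rw [S'_neg hx]; simpa using hC0
  by_cases hx1 : 1 < x
  · rw [S'_big hx1]; simpa using hC0
  exact hC x ⟨not_lt.1 hx, not_lt.1 hx1⟩

lemma chi_contDiff (n : ℕ) : ContDiff ℝ (⊤ : ℕ∞) (chi n) := by
  unfold chi
  have h : ContDiff ℝ (⊤ : ℕ∞) Real.smoothTransition := Real.smoothTransition.contDiff
  exact (h.comp (by fun_prop)).mul (h.comp (by fun_prop))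

lemma chi_deriv (n : ℕ) (r : ℝ) : HasDerivAt (chi n) (chi' n r) r := by
  have h1 : HasDerivAt (fun r : ℝ => ((n : ℝ) + 1) * r - 1) ((n : ℝ) + 1) r := by
    simpa using ((hasDerivAt_id r).const_mul ((n : ℝ) + 1)).sub_const 1
  have h2 : HasDerivAt (fun r : ℝ => (n : ℝ) + 2 - r) (-1) r := by
    simpa using (hasDerivAt_id r).const_sub ((n : ℝ) + 2)
  have h3 := ((S_diff _).hasDerivAt.comp r h1).mul ((S_diff _).hasDerivAt.comp r h2)
  refine h3.congr_deriv ?_
  simp only [chi', Function.comp_apply]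
  ring

lemma chi'_cont (n : ℕ) : Continuous (chi' n) := by
  unfold chi'
  have h1 := S'_cont
  have h2 := Real.smoothTransition.continuous
  fun_prop

lemma chi_zero (n : ℕ) {r : ℝ} (h : (n + 1) * r ≤ 1) : chi n r = 0 := by
  unfold chi
  rw [Real.smoothTransition.zero_of_nonpos (by linarith), zero_mul]

lemma chi_far (n : ℕ) {r : ℝ} (h : n + 2 ≤ r) : chi n r = 0 := by
  unfold chi
  rw [Real.smoothTransition.zero_of_nonpos (x := (n : ℝ) + 2 - r) (by linarith), mul_zero]

lemma chi_nonneg (n : ℕ) (r : ℝ) : 0 ≤ chi n r :=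
  mul_nonneg (Real.smoothTransition.nonneg _) (Real.smoothTransition.nonneg _)

lemma chi_le (n : ℕ) (r : ℝ) : chi n r ≤ 1 :=
  mul_le_one₀ (Real.smoothTransition.le_one _) (Real.smoothTransition.nonneg _)
    (Real.smoothTransition.le_one _)

lemma chi_ev {r : ℝ} (hr : 0 < r) : ∀ᶠ n : ℕ in atTop, chi n r = 1 ∧ chi' n r = 0 := by
  obtain ⟨n₀, hn₀⟩ := exists_nat_gt (max (3 / r) (r + 1))
  filter_upwards [eventually_ge_atTop n₀] with n hn
  have hn' : (n₀ : ℝ) ≤ n := by exact_mod_cast hn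
  have h1 : 3 / r < n := ((le_max_left _ _).trans_lt hn₀).trans_le hn'
  have h2 : r + 1 < n := ((le_max_right _ _).trans_lt hn₀).trans_le hn'
  have h3 : 1 < ((n : ℝ) + 1) * r - 1 := by
    rw [div_lt_iff₀ hr] at h1
    nlinarith
  have h4 : 1 < (n : ℝ) + 2 - r := by linarith
  constructor
  · unfold chi
    rw [Real.smoothTransition.one_of_one_le h3.le, Real.smoothTransition.one_of_one_le h4.le,
      one_mul]
  · unfold chi'
    rw [S'_big h3, S'_big h4]
    ring

lemma chi'_bdd : ∃ C : ℝ, 0 ≤ C ∧ ∀ (n : ℕ) (r : ℝ), 0 < r → |chi' n r| ≤ C * (2 / r + 1) := by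
  obtain ⟨C, hC0, hC⟩ := S'_bdd
  refine ⟨C, hC0, fun n r hr => ?_⟩
  have hn : (0 : ℝ) ≤ n := Nat.cast_nonneg n
  have a1 : |(n + 1) * deriv Real.smoothTransition ((n + 1) * r - 1)| ≤ C * (2 / r) := by
    by_cases h : 1 < ((n : ℝ) + 1) * r - 1
    · rw [S'_big h]
      simp only [mul_zero, abs_zero]
      positivity
    · have h1 : (n : ℝ) + 1 ≤ 2 / r := by
        rw [le_div_iff₀ hr]; linarith
      rw [abs_mul, abs_of_pos (by positivity : (0 : ℝ) < (n : ℝ) + 1), mul_comm]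
      exact mul_le_mul (hC _) h1 (by positivity) hC0
  have a2 : |Real.smoothTransition ((n : ℝ) + 2 - r)| ≤ 1 := by
    rw [abs_of_nonneg (Real.smoothTransition.nonneg _)]
    exact Real.smoothTransition.le_one _
  have a3 : |Real.smoothTransition (((n : ℝ) + 1) * r - 1)| ≤ 1 := by
    rw [abs_of_nonneg (Real.smoothTransition.nonneg _)]
    exact Real.smoothTransition.le_one _
  unfold chi'
  refine (abs_sub _ _).trans ?_
  have b1 : |(n + 1) * deriv Real.smoothTransition ((n + 1) * r - 1) *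
      Real.smoothTransition (n + 2 - r)| ≤ C * (2 / r) * 1 := by
    rw [abs_mul]
    exact mul_le_mul a1 a2 (abs_nonneg _) (by positivity)
  have b2 : |Real.smoothTransition ((n + 1) * r - 1) * deriv Real.smoothTransition (n + 2 - r)| ≤
      1 * C := by
    rw [abs_mul]
    exact mul_le_mul a3 (hC _) (abs_nonneg _) zero_le_one
  linarith

/-- limits of the radial integrals -/
theorem rad (p : ℕ) :
    Tendsto (fun n => ∫ r in Ioi (0 : ℝ), r ^ (p + 2) * (chi n r ^ 2 * Real.exp (-r ^ 2 / 2)))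
      atTop (𝓝 (mom (p + 2))) ∧
    Tendsto (fun n => ∫ r in Ioi (0 : ℝ), r ^ p * (chi n r ^ 2 * Real.exp (-r ^ 2 / 2)))
      atTop (𝓝 (mom p)) ∧
    Tendsto (fun n => ∫ r in Ioi (0 : ℝ), r ^ (p + 2) * (chi' n r ^ 2 * Real.exp (-r ^ 2 / 2)))
      atTop (𝓝 0) := by
  have hcc : ∀ n, Continuous (chi n) := fun n => (chi_contDiff n).continuous
  have hcc' := chi'_cont
  have gen : ∀ q : ℕ, Tendsto
      (fun n => ∫ r in Ioi (0 : ℝ), r ^ q * (chi n r ^ 2 * Real.exp (-r ^ 2 / 2)))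
      atTop (𝓝 (mom q)) := by
    intro q
    unfold mom
    refine tendsto_integral_of_dominated_convergence
      (fun r => r ^ q * Real.exp (-r ^ 2 / 2)) (fun n => ?_) (mi q) (fun n => ?_) ?_
    · have := hcc n
      exact (by fun_prop : Continuous fun r : ℝ =>
        r ^ q * (chi n r ^ 2 * Real.exp (-r ^ 2 / 2))).aestronglyMeasurable
    · refine (ae_restrict_iff' measurableSet_Ioi).2 (Eventually.of_forall fun r hr => ?_)
      have hr0 : (0 : ℝ) < r := hr
      have h1 : chi n r ^ 2 ≤ 1 := pow_le_one₀ (chi_nonneg n r) (chi_le n r)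
      have h2 : 0 ≤ r ^ q * Real.exp (-r ^ 2 / 2) := by positivity
      rw [Real.norm_eq_abs, abs_of_nonneg (by positivity)]
      nlinarith
    · refine (ae_restrict_iff' measurableSet_Ioi).2 (Eventually.of_forall fun r hr => ?_)
      apply tendsto_const_nhds.congr'
      filter_upwards [chi_ev hr] with n hn
      rw [hn.1]; ring
  refine ⟨gen _, gen _, ?_⟩
  obtain ⟨C, hC0, hC⟩ := chi'_bdd
  have h0 : ∫ _ in Ioi (0 : ℝ), (0 : ℝ) = 0 := by simp
  suffices h : Tendsto (fun n => ∫ r in Ioi (0 : ℝ), r ^ (p + 2) *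
      (chi' n r ^ 2 * Real.exp (-r ^ 2 / 2))) atTop (𝓝 (∫ _ in Ioi (0 : ℝ), (0 : ℝ))) by
    rwa [h0] at h
  refine tendsto_integral_of_dominated_convergence
    (fun r => C ^ 2 * (4 * (r ^ p * Real.exp (-r ^ 2 / 2)) +
      4 * (r ^ (p + 1) * Real.exp (-r ^ 2 / 2)) + r ^ (p + 2) * Real.exp (-r ^ 2 / 2)))
    (fun n => ?_) ?_ (fun n => ?_) ?_
  · have := hcc' n
    exact (by fun_prop : Continuous fun r : ℝ =>
      r ^ (p + 2) * (chi' n r ^ 2 * Real.exp (-r ^ 2 / 2))).aestronglyMeasurable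
  · exact ((((mi p).const_mul 4).add ((mi (p + 1)).const_mul 4)).add (mi (p + 2))).const_mul _
  · refine (ae_restrict_iff' measurableSet_Ioi).2 (Eventually.of_forall fun r hr => ?_)
    have hr0 : (0 : ℝ) < r := hr
    have h1 : chi' n r ^ 2 ≤ (C * (2 / r + 1)) ^ 2 := by
      rw [← sq_abs]
      exact pow_le_pow_left₀ (abs_nonneg _) (hC n r hr0) 2
    rw [Real.norm_eq_abs, abs_of_nonneg (by positivity)]
    have h2 : r ^ (p + 2) * (chi' n r ^ 2 * Real.exp (-r ^ 2 / 2)) ≤
        r ^ (p + 2) * ((C * (2 / r + 1)) ^ 2 * Real.exp (-r ^ 2 / 2)) := by gcongr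
    refine h2.trans (le_of_eq ?_)
    field_simp
    ring
  · refine (ae_restrict_iff' measurableSet_Ioi).2 (Eventually.of_forall fun r hr => ?_)
    apply tendsto_const_nhds.congr'
    filter_upwards [chi_ev hr] with n hn
    rw [hn.2]; ring

end Pool.Agent.H83.LSD
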