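import Pool.Agent.H69.LNN.Targets
import Pool.Agent.H83.LSD.A3
import Pool.Agent.H83.LSD.A4
import Pool.Agent.H37.LQ.MP

set_option autoImplicit false

/-!
# T_LSD: the logarithmic Sobolev inequality on the sphere in dual form
-/

open MeasureTheory Set Filter Topology

namespace Pool.Agent.H83.LSD

open Pool.Agent.H85.LK (E)
open Pool.Agent.H69.LQ

variable {N : ℕ}

/-- the test function -/
noncomputable def hn (n : ℕ) (f : E N → ℝ) (x : E N) : ℝ := chi n ‖x‖ * f (‖x‖⁻¹ • x)

lemma hn_smooth (n : ℕ) (f : E N → ℝ) (hf : ContDiff ℝ (⊤ : ℕ∞) f) :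
    ContDiff ℝ 1 (hn n f) := by
  have hf1 : ContDiff ℝ 1 f := hf.of_le (by exact_mod_cast le_top)
  have hc1 : ContDiff ℝ 1 (chi n) := (chi_contDiff n).of_le (by exact_mod_cast le_top)
  rw [contDiff_iff_contDiffAt]
  intro x
  by_cases hx : x = 0
  · have h0 : hn n f =ᶠ[𝓝 x] fun _ => (0 : ℝ) := by
      have h1 : Metric.ball (0 : E N) (1 / ((n : ℝ) + 1)) ∈ 𝓝 x := by
        rw [hx]; exact Metric.ball_mem_nhds _ (by positivity)
      filter_upwards [h1] with y hy
      rw [mem_ball_zero_iff, lt_div_iff₀ (by positivity)] at hy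
      unfold hn
      rw [chi_zero n (by linarith), zero_mul]
    exact contDiffAt_const.congr_of_eventuallyEq h0
  · have hnorm : ContDiffAt ℝ 1 (fun y : E N => ‖y‖) x := contDiffAt_norm ℝ hx
    have hne : ‖x‖ ≠ 0 := norm_ne_zero_iff.2 hx
    exact (hc1.contDiffAt.comp x hnorm).mul
      (hf1.contDiffAt.comp x ((hnorm.inv hne).smul contDiffAt_id))

lemma hn_cs (n : ℕ) (f : E N → ℝ) : HasCompactSupport (hn n f) := by
  apply HasCompactSupport.of_support_subset_isCompact
    (isCompact_closedBall (0 : E N) ((n : ℝ) + 2))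
  intro x hx
  rw [mem_closedBall_zero_iff]
  by_contra hc
  apply hx
  unfold hn
  rw [chi_far n (not_le.1 hc).le, zero_mul]

lemma norm_rθ {r : ℝ} (hr : 0 < r) (θ : Sp N) : ‖r • (θ : E N)‖ = r := by
  have : ‖(θ : E N)‖ = 1 := by simp
  rw [norm_smul, this, mul_one, Real.norm_eq_abs, abs_of_pos hr]

lemma unit_rθ {r : ℝ} (hr : 0 < r) (θ : Sp N) :
    ‖r • (θ : E N)‖⁻¹ • (r • (θ : E N)) = θ := by
  rw [norm_rθ hr, smul_smul, inv_mul_cancel₀ hr.ne', one_smul]

lemma hn_polar (n : ℕ) (f : E N → ℝ) {r : ℝ} (hr : 0 < r) (θ : Sp N) :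
    hn n f (r • (θ : E N)) = chi n r * f θ := by
  unfold hn
  rw [unit_rθ hr, norm_rθ hr]

/-- derivative in tangential directions -/
lemma tang (n : ℕ) (f : E N → ℝ) (hf : ContDiff ℝ (⊤ : ℕ∞) f) {r : ℝ} (hr : 0 < r) (θ : Sp N)
    (v : E N) (hv : inner ℝ (θ : E N) v = 0) :
    fderiv ℝ (fun x => hn n f (r • x)) (θ : E N) v = chi n r * fderiv ℝ f (θ : E N) v := by
  have hθ : ‖(θ : E N)‖ = 1 := by simp
  set c : ℝ → E N := fun t => (θ : E N) + t • v with hc
  have hcd : HasDerivAt c v 0 := by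
    exact (((hasDerivAt_id (0 : ℝ)).smul_const v).const_add (θ : E N)).congr_deriv (one_smul _ _)
  have hc0 : c 0 = θ := by simp [hc]
  have hρ : ∀ t, ‖c t‖ = Real.sqrt (1 + t ^ 2 * ‖v‖ ^ 2) := by
    intro t
    have h1 : ‖c t‖ ^ 2 = 1 + t ^ 2 * ‖v‖ ^ 2 := by
      simp only [hc]
      rw [norm_add_sq_real, inner_smul_right, hv, norm_smul, hθ]
      rw [mul_pow, Real.norm_eq_abs, sq_abs]
      ring
    rw [← h1, Real.sqrt_sq (norm_nonneg _)]
  have hρ0 : ‖c 0‖ = 1 := by rw [hc0, hθ]
  have hρd : HasDerivAt (fun t => ‖c t‖) 0 0 := by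
    have h1 : HasDerivAt (fun t : ℝ => 1 + t ^ 2 * ‖v‖ ^ 2) 0 0 := by
      have := ((hasDerivAt_pow 2 (0 : ℝ)).mul_const (‖v‖ ^ 2)).const_add 1
      simpa using this
    have h2 := h1.sqrt (by simp)
    simp only [zero_div] at h2
    exact h2.congr_of_eventuallyEq (Eventually.of_forall hρ)
  have hdiff : DifferentiableAt ℝ (fun x => hn n f (r • x)) (θ : E N) := by
    have h1 := (hn_smooth n f hf).differentiable (by norm_num)
    have h2 : DifferentiableAt ℝ (fun x : E N => r • x) (θ : E N) := by fun_prop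
    exact (h1 _).comp _ h2
  have h1 : HasDerivAt (fun t => hn n f (r • c t))
      (fderiv ℝ (fun x => hn n f (r • x)) (θ : E N) v) 0 := by
    have h2 : HasFDerivAt (fun x => hn n f (r • x)) (fderiv ℝ (fun x => hn n f (r • x)) (θ : E N))
        (c 0) := by
      rw [hc0]; exact hdiff.hasFDerivAt
    exact h2.comp_hasDerivAt (0 : ℝ) hcd
  have hform : ∀ t, hn n f (r • c t) = chi n (r * ‖c t‖) * f (‖c t‖⁻¹ • c t) := by
    intro t
    unfold hn
    have e1 : ‖r • c t‖ = r * ‖c t‖ := by rw [norm_smul, Real.norm_eq_abs, abs_of_pos hr]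
    rw [e1, mul_inv, smul_smul]
    congr 3
    field_simp
  have h3 : HasDerivAt (fun t => ‖c t‖⁻¹ • c t) v 0 := by
    have h4 : HasDerivAt (fun t => ‖c t‖⁻¹) 0 0 := by
      exact (hρd.inv (by rw [hρ0]; norm_num)).congr_deriv (by simp)
    exact (h4.smul hcd).congr_deriv (by simp [hρ0])
  have h6 : HasDerivAt (fun t => f (‖c t‖⁻¹ • c t)) (fderiv ℝ f (θ : E N) v) 0 := by
    have h7 : HasFDerivAt f (fderiv ℝ f (θ : E N)) (‖c 0‖⁻¹ • c 0) := by
      rw [hρ0, hc0, inv_one, one_smul]
      exact (hf.differentiable (by simp) _).hasFDerivAt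
    exact h7.comp_hasDerivAt (0 : ℝ) h3
  have h8 : HasDerivAt (fun t => chi n (r * ‖c t‖)) 0 0 := by
    have h9 := (chi_deriv n (r * ‖c 0‖)).comp (0 : ℝ) (hρd.const_mul r)
    have e : chi' n (r * ‖c 0‖) * (r * 0) = 0 := by ring
    exact h9.congr_deriv e
  have h10 := h8.mul h6
  have h11 : HasDerivAt (fun t => hn n f (r • c t))
      (0 * f (‖c 0‖⁻¹ • c 0) + chi n (r * ‖c 0‖) * fderiv ℝ f (θ : E N) v) 0 := by
    refine h10.congr_of_eventuallyEq (Eventually.of_forall fun t => ?_)
    simp only [hform, Pi.mul_apply]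
  have h12 := h1.unique h11
  rw [h12, hρ0, mul_one, zero_mul, zero_add]

lemma LL_eq (f : E N → ℝ) (x : E N) (i j : Fin N) :
    LL i j f x = fderiv ℝ f x (x i • EuclideanSpace.single j (1 : ℝ) -
      x j • EuclideanSpace.single i (1 : ℝ)) := by
  unfold LL
  rw [map_sub, map_smul, map_smul, smul_eq_mul, smul_eq_mul]

lemma grad (n : ℕ) (f : E N → ℝ) (hf : ContDiff ℝ (⊤ : ℕ∞) f) {r : ℝ} (hr : 0 < r)
    (θ : Sp N) : ‖fderiv ℝ (hn n f) (r • (θ : E N))‖ ^ 2 =
      chi' n r ^ 2 * f θ ^ 2 + chi n r ^ 2 * Gs f θ / r ^ 2 := by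
  have hd := (hn_smooth n f hf).differentiable (by norm_num)
  rw [(Pool.Agent.H37.LQ.pf_GR N (hn n f) hd).2 r θ hr.ne']
  congr 1
  · have h1 : dr (hn n f) r θ = chi' n r * f θ := by
      unfold dr
      have h2 : HasDerivAt (fun t : ℝ => hn n f (t • (θ : E N)))
          (fderiv ℝ (hn n f) (r • (θ : E N)) (θ : E N)) r := by
        have h3 : HasDerivAt (fun t : ℝ => t • (θ : E N)) (θ : E N) r := by
          simpa using (hasDerivAt_id r).smul_const (θ : E N)
        exact (hd _).hasFDerivAt.comp_hasDerivAt r h3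
      have h4 : HasDerivAt (fun t : ℝ => hn n f (t • (θ : E N))) (chi' n r * f θ) r := by
        refine ((chi_deriv n r).mul_const (f θ)).congr_of_eventuallyEq ?_
        filter_upwards [lt_mem_nhds hr] with t ht
        exact hn_polar n f ht θ
      exact h2.unique h4
    rw [h1]; ring
  · congr 1
    have hL : ∀ i j, LL i j (fun x => hn n f (r • x)) (θ : E N) ^ 2 =
        chi n r ^ 2 * LL i j f (θ : E N) ^ 2 := by
      intro i j
      rw [LL_eq, LL_eq, tang n f hf hr θ, mul_pow]
      rw [inner_sub_right, inner_smul_right, inner_smul_right, EuclideanSpace.inner_single_right,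
        EuclideanSpace.inner_single_right]
      simp
      ring
    unfold Gs
    simp only [hL, ← Finset.mul_sum]
    ring

/-- projection to the sphere -/
noncomputable def pr (e : Sp N) (x : E N) : Sp N :=
  ⟨if x = 0 then (e : E N) else ‖x‖⁻¹ • x, by
    by_cases hx : x = 0
    · rw [if_pos hx]; exact e.2
    · rw [if_neg hx, mem_sphere_zero_iff_norm, norm_smul, norm_inv, norm_norm,
        inv_mul_cancel₀ (norm_ne_zero_iff.2 hx)]⟩

lemma pr_meas (e : Sp N) : Measurable (pr e) := by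
  unfold pr
  refine Measurable.subtype_mk ?_
  refine Measurable.ite (measurableSet_singleton (0 : E N)) measurable_const ?_
  exact (measurable_norm.inv).smul measurable_id

lemma pr_polar (e : Sp N) {r : ℝ} (hr : 0 < r) (θ : Sp N) : pr e (r • (θ : E N)) = θ := by
  apply Subtype.ext
  unfold pr
  have hne : r • (θ : E N) ≠ 0 := by
    intro h
    have := norm_rθ hr θ
    rw [h, norm_zero] at this
    linarith
  simp only [if_neg hne]
  exact unit_rθ hr θ

/-- integrands on a ray -/
lemma iA (p n : ℕ) : IntegrableOn (fun r : ℝ => r ^ p * (chi n r ^ 2 * Real.exp (-r ^ 2 / 2)))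
    (Ioi 0) := by
  refine (mi p).mono' ?_ ?_
  · have := (chi_contDiff n).continuous
    exact (by fun_prop : Continuous fun r : ℝ =>
      r ^ p * (chi n r ^ 2 * Real.exp (-r ^ 2 / 2))).aestronglyMeasurable
  · refine (ae_restrict_iff' measurableSet_Ioi).2 (Eventually.of_forall fun r hr => ?_)
    have hr0 : (0 : ℝ) < r := hr
    have h1 : chi n r ^ 2 ≤ 1 := pow_le_one₀ (chi_nonneg n r) (chi_le n r)
    have h2 : 0 ≤ r ^ p * Real.exp (-r ^ 2 / 2) := by positivity
    rw [Real.norm_eq_abs, abs_of_nonneg (by positivity)]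
    nlinarith

lemma iC (p n : ℕ) :
    IntegrableOn (fun r : ℝ => r ^ (p + 2) * (chi' n r ^ 2 * Real.exp (-r ^ 2 / 2))) (Ioi 0) := by
  obtain ⟨C, hC0, hC⟩ := chi'_bdd
  have hi : IntegrableOn (fun r : ℝ => C ^ 2 * (4 * (r ^ p * Real.exp (-r ^ 2 / 2)) +
      4 * (r ^ (p + 1) * Real.exp (-r ^ 2 / 2)) + r ^ (p + 2) * Real.exp (-r ^ 2 / 2))) (Ioi 0) :=
    ((((mi p).const_mul 4).add ((mi (p + 1)).const_mul 4)).add (mi (p + 2))).const_mul _
  refine hi.mono' ?_ ?_
  · have := chi'_cont n
    exact (by fun_prop : Continuous fun r : ℝ =>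
      r ^ (p + 2) * (chi' n r ^ 2 * Real.exp (-r ^ 2 / 2))).aestronglyMeasurable
  · refine (ae_restrict_iff' measurableSet_Ioi).2 (Eventually.of_forall fun r hr => ?_)
    have hr0 : (0 : ℝ) < r := hr
    have h1 : chi' n r ^ 2 ≤ (C * (2 / r + 1)) ^ 2 := by
      rw [← sq_abs]
      exact pow_le_pow_left₀ (abs_nonneg _) (hC n r hr0) 2
    rw [Real.norm_eq_abs, abs_of_nonneg (by positivity)]
    have h2 : r ^ (p + 2) * (chi' n r ^ 2 * Real.exp (-r ^ 2 / 2)) ≤
        r ^ (p + 2) * ((C * (2 / r + 1)) ^ 2 * Real.exp (-r ^ 2 / 2)) := by gcongr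
    refine h2.trans (le_of_eq ?_)
    field_simp
    ring

/-- (LSD) the logarithmic Sobolev inequality on the sphere in dual form. -/
theorem pf_LSD : Pool.Agent.H69.LNN.T_LSD := by
  intro N f Φ hN hf hΦ
  obtain ⟨p, rfl⟩ : ∃ p, N = p + 3 := ⟨N - 3, by omega⟩
  obtain ⟨hΦm, M, hM⟩ := hΦ
  obtain ⟨hprob, har, -, hpol⟩ := Pool.Agent.H37.LQ.pf_MP (p + 3) (by omega)
  have hN1 : (p + 3 - 1 : ℕ) = p + 2 := by omega
  simp only [hN1] at hpol
  set e : Sp (p + 3) := ⟨EuclideanSpace.single 0 1, by simp⟩ with he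
  set Φ' : E (p + 3) → ℝ := fun x => Φ (pr e x) with hΦ'
  have hΦ'm : Measurable Φ' := hΦm.comp (pr_meas e)
  have hΦ'M : ∀ x, |Φ' x| ≤ M := fun x => hM _
  have hgi := ga_int (p + 3)
  have hgc := ga_cont (p + 3)
  have hM0 : 0 ≤ M := (abs_nonneg _).trans (hM e)
  have hgaθ : ∀ (r : ℝ) (θ : Sp (p + 3)), 0 < r → ga (p + 3) (r • (θ : E (p + 3))) =
      Real.exp (-r ^ 2 / 2) := by
    intro r θ hr; unfold ga; rw [norm_rθ hr]
  have hθc : Continuous fun θ : Sp (p + 3) => f (θ : E (p + 3)) :=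
    hf.continuous.comp continuous_subtype_val
  -- the exponential
  have hE : ∫ x, Real.exp (Φ' x) * ga (p + 3) x =
      ar (p + 3) * (mom (p + 2) * av fun θ => Real.exp (Φ θ)) := by
    have iE : Integrable fun x => Real.exp (Φ' x) * ga (p + 3) x := by
      refine (hgi.const_mul (Real.exp M)).mono'
        ((Real.measurable_exp.comp hΦ'm).mul hgc.measurable).aestronglyMeasurable
        (Eventually.of_forall fun x => ?_)
      rw [Real.norm_eq_abs, abs_of_pos (mul_pos (Real.exp_pos _) (ga_pos x))]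
      exact mul_le_mul_of_nonneg_right (Real.exp_le_exp.2 ((le_abs_self _).trans (hΦ'M x)))
        (ga_pos x).le
    rw [(hpol _ iE).2.2]
    congr 1
    unfold av mom
    rw [← integral_const_mul]
    refine integral_congr_ae (Eventually.of_forall fun θ => ?_)
    simp only
    rw [← integral_mul_const]
    refine setIntegral_congr_fun measurableSet_Ioi (fun r hr => ?_)
    rw [hgaθ r θ hr, hΦ']
    simp only [pr_polar e hr θ]
    ring
  have hC : cG ^ (p + 3) = ar (p + 3) * mom (p + 2) := by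
    have h1 : ∫ x, ga (p + 3) x = cG ^ (p + 3) := by
      rw [← intE]
      simp only [← W_ofLp]
      unfold W
      rw [integral_fintype_prod_volume_eq_prod (fun _ : Fin (p + 3) => w)]
      simp [cG]
    rw [← h1, (hpol _ hgi).2.2]
    congr 1
    have h2 : ∀ θ : Sp (p + 3), ∫ r in Ioi (0 : ℝ), r ^ (p + 2) * ga (p + 3) (r • (θ : E (p + 3))) =
        mom (p + 2) := by
      intro θ
      refine setIntegral_congr_fun measurableSet_Ioi (fun r hr => ?_)
      rw [hgaθ r θ hr]
    simp only [h2]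
    unfold av
    simp
  have hmp := mom_pos (p + 2)
  have hmp0 := mom_pos p
  have hratio : (∫ x, Real.exp (Φ' x) * ga (p + 3) x) / cG ^ (p + 3) =
      av fun θ => Real.exp (Φ θ) := by
    rw [hE, hC]
    field_simp
  set ℓ := Real.log (av fun θ => Real.exp (Φ θ)) with hℓ
  set F := av fun θ : Sp (p + 3) => rs f 1 θ ^ 2 with hF
  set P := av fun θ : Sp (p + 3) => Φ θ * rs f 1 θ ^ 2 with hP
  set G := av fun θ : Sp (p + 3) => Gs f (θ : E (p + 3)) with hG
  have hrs : ∀ θ : Sp (p + 3), rs f 1 θ = f θ := by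
    intro θ; unfold rs; rw [one_smul]
  set A : ℕ → ℝ := fun n => ∫ r in Ioi (0 : ℝ), r ^ (p + 2) * (chi n r ^ 2 *
    Real.exp (-r ^ 2 / 2)) with hA
  set B : ℕ → ℝ := fun n => ∫ r in Ioi (0 : ℝ), r ^ p * (chi n r ^ 2 *
    Real.exp (-r ^ 2 / 2)) with hB
  set C : ℕ → ℝ := fun n => ∫ r in Ioi (0 : ℝ), r ^ (p + 2) * (chi' n r ^ 2 *
    Real.exp (-r ^ 2 / 2)) with hCd
  obtain ⟨tA, tB, tC⟩ := rad p
  -- the inequality for each n
  have hn' : ∀ n, P * A n ≤ 2 * (C n * F + B n * G) + ℓ * (F * A n) := by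
    intro n
    have hs := hn_smooth n f hf
    have hcs := hn_cs n f
    have key := lg (p + 3) Φ' M hΦ'm hΦ'M (hn n f) hs hcs
    rw [hratio] at key
    have i2 : Integrable fun x => hn n f x ^ 2 * ga (p + 3) x := by
      apply Continuous.integrable_of_hasCompactSupport
      · have := hs.continuous; fun_prop
      · exact (hcs.comp_left (g := fun t => t ^ 2) (by simp)).mul_right
    have i1 : Integrable fun x => Φ' x * hn n f x ^ 2 * ga (p + 3) x := by
      have h1 : Integrable fun x => Φ' x * (hn n f x ^ 2 * ga (p + 3) x) :=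
        i2.bdd_mul (c := M) hΦ'm.aestronglyMeasurable (Eventually.of_forall fun x => hΦ'M x)
      simpa only [mul_assoc] using h1
    have i3 : Integrable fun x => ‖fderiv ℝ (hn n f) x‖ ^ 2 * ga (p + 3) x := by
      apply Continuous.integrable_of_hasCompactSupport
      · have := hs.continuous_fderiv (by norm_num); fun_prop
      · have h1 : HasCompactSupport fun x => ‖fderiv ℝ (hn n f) x‖ ^ 2 :=
          (hcs.fderiv ℝ).comp_left (g := fun L => ‖L‖ ^ 2) (by simp)
        exact h1.mul_right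
    have e1 : ∫ x, Φ' x * hn n f x ^ 2 * ga (p + 3) x = ar (p + 3) * (A n * P) := by
      rw [(hpol _ i1).2.2]
      congr 1
      rw [hP]
      unfold av
      rw [← integral_const_mul]
      refine integral_congr_ae (Eventually.of_forall fun θ => ?_)
      simp only [hA]
      rw [← integral_mul_const]
      refine setIntegral_congr_fun measurableSet_Ioi (fun r hr => ?_)
      rw [hgaθ r θ hr, hΦ', hn_polar n f hr θ, hrs]
      simp only [pr_polar e hr θ]
      ring
    have e2 : ∫ x, hn n f x ^ 2 * ga (p + 3) x = ar (p + 3) * (A n * F) := by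
      rw [(hpol _ i2).2.2]
      congr 1
      rw [hF]
      unfold av
      rw [← integral_const_mul]
      refine integral_congr_ae (Eventually.of_forall fun θ => ?_)
      simp only [hA]
      rw [← integral_mul_const]
      refine setIntegral_congr_fun measurableSet_Ioi (fun r hr => ?_)
      rw [hgaθ r θ hr, hn_polar n f hr θ, hrs]
      ring
    have e3 : ∫ x, ‖fderiv ℝ (hn n f) x‖ ^ 2 * ga (p + 3) x =
        ar (p + 3) * (C n * F + B n * G) := by
      rw [(hpol _ i3).2.2]
      congr 1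
      have h1 : ∀ θ : Sp (p + 3), ∫ r in Ioi (0 : ℝ), r ^ (p + 2) *
          (‖fderiv ℝ (hn n f) (r • (θ : E (p + 3)))‖ ^ 2 * ga (p + 3) (r • (θ : E (p + 3)))) =
          C n * f θ ^ 2 + B n * Gs f θ := by
        intro θ
        simp only [hCd, hB]
        rw [← integral_mul_const, ← integral_mul_const, ← integral_add
          ((iC p n).mul_const _) ((iA p n).mul_const _)]
        refine setIntegral_congr_fun measurableSet_Ioi (fun r hr => ?_)
        have hr0 : (0 : ℝ) < r := hr
        rw [hgaθ r θ hr, grad n f hf hr θ, pow_add]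
        field_simp
      simp only [h1]
      have hGc : Continuous fun θ : Sp (p + 3) => Gs f (θ : E (p + 3)) := by
        have hfd : Continuous fun x => fderiv ℝ f x := hf.continuous_fderiv (by simp)
        have h3 : Continuous fun x : E (p + 3) => Gs f x := by
          unfold Gs LL
          fun_prop
        exact h3.comp continuous_subtype_val
      have hcomp : CompactSpace (Sp (p + 3)) := by
        apply isCompact_iff_compactSpace.1
        exact isCompact_sphere _ _
      have j1 : Integrable (fun θ : Sp (p + 3) => C n * f θ ^ 2) (mS (p + 3)) :=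
        ((hθc.pow 2).integrable_of_hasCompactSupport
          (HasCompactSupport.of_compactSpace _)).const_mul _
      have j2 : Integrable (fun θ : Sp (p + 3) => B n * Gs f θ) (mS (p + 3)) :=
        (hGc.integrable_of_hasCompactSupport (HasCompactSupport.of_compactSpace _)).const_mul _
      rw [hF, hG]
      unfold av
      rw [integral_add j1 j2, integral_const_mul, integral_const_mul]
      simp only [hrs]
    rw [e1, e2, e3] at key
    have h5 : ar (p + 3) * (P * A n) ≤ ar (p + 3) * (2 * (C n * F + B n * G) + ℓ * (F * A n)) := by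
      linarith
    exact le_of_mul_le_mul_left h5 har
  have hlim := le_of_tendsto_of_tendsto' (tA.const_mul P)
    ((((tC.mul_const F).add (tB.mul_const G)).const_mul 2).add ((tA.const_mul F).const_mul ℓ)) hn'
  rw [mom_rec p] at hlim
  have hp0 : (0 : ℝ) ≤ p := Nat.cast_nonneg p
  have hN2 : ((p + 3 : ℕ) : ℝ) - 2 = (p : ℝ) + 1 := by push_cast; ring
  rw [hN2]
  have h6 : ((p : ℝ) + 1) * mom p * P ≤
      ((p : ℝ) + 1) * mom p * (2 / ((p : ℝ) + 1) * G + ℓ * F) := by
    have h7 : ((p : ℝ) + 1) * mom p * (2 / ((p : ℝ) + 1) * G + ℓ * F) =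
        2 * (0 * F + mom p * G) + ℓ * (F * (((p : ℝ) + 1) * mom p)) := by
      field_simp
      ring
    rw [h7]
    linarith
  exact le_of_mul_le_mul_left h6 (by positivity)

end Pool.Agent.H83.LSD
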